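import Mathlib
import Pool.Agent.R603.HE.Build
import Pool.Agent.Helper292.ForceCH

/-!
It is consistent with ZFC that there is a countably compact hyperextension.

Some notion of forcing preserves `ω₁` and forces the continuum hypothesis, and the continuum
hypothesis implies that `ℕ` has a countably compact hyperextension: it is the subspace of `βℕ` of
all images of the members of a chain of Hausdorff ultrafilters of length `ω₁`, increasing in the
Rudin-Keisler order, in which every member is a sum of the preceding ones along a suitably generic
ultrafilter.
-/

namespace Pool.Agent.Results.MP_f4378e_lc.ConsistentlyYes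

open Pool.Agent.R603.HE

/-- (1) Some notion of forcing forces that `ω₁` is preserved and that the continuum hypothesis
holds. (2) The continuum hypothesis implies that there is a hyperextension of `ℕ` which is
Hausdorff and countably compact. -/
theorem result :
    (∃ (P : Type) (_ : Preorder P), Nonempty P ∧ ∀ p : P,
      p ∈ Pool.Agent.Helper292.ForceCH.OmegaOnePreserved P ∧
      p ∈ Pool.Agent.Helper292.ForceCH.CHHolds P) ∧
    (Cardinal.aleph 1 = Cardinal.continuum.{0} →
      ∃ E : TopExt ℕ, E.IsHyper ∧ @T2Space E.Y E.top ∧ @CountablyCompactSpace E.Y E.top) := by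
  refine ⟨?_, fun hCH => exists_topExt hCH⟩
  obtain ⟨P, i, h1, h2⟩ := Pool.Agent.Helper292.ForceCH.exists_forcing
  exact ⟨P, i, h1, fun p => ⟨(h2 p).1, (h2 p).2.2⟩⟩

end Pool.Agent.Results.MP_f4378e_lc.ConsistentlyYes
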